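import Mathlib
import Pool.Agent.MP_47f5fb_nt.Ct.Main

set_option autoImplicit false

namespace Pool.Agent.Results.MP_47f5fb_nt.PowerSaving

/-- For every `ε > 0` there is `K` such that for every `B`, each finite set of integer solutions
of `x³ + x + y³ + y + z³ + z = xyz + 1` with `|x|, |y|, |z| ≤ B` has at most `K B^(23/24 + ε)`
elements. -/
theorem result (ε : ℝ) (hε : 0 < ε) : ∃ K : ℝ, ∀ (B : ℕ) (A : Finset (ℤ × ℤ × ℤ)),
    (∀ x y z : ℤ, (x, y, z) ∈ A → x ^ 3 + x + y ^ 3 + y + z ^ 3 + z = x * y * z + 1 ∧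
      |x| ≤ B ∧ |y| ≤ B ∧ |z| ≤ B) →
    (A.card : ℝ) ≤ K * (B : ℝ) ^ (23 / 24 + ε) := by
  obtain ⟨K, hK⟩ := Pool.Agent.MP_47f5fb_nt.Ct.main ε hε
  exact ⟨K, fun B A hA => hK B A fun P hP => hA P.1 P.2.1 P.2.2 hP⟩

end Pool.Agent.Results.MP_47f5fb_nt.PowerSaving
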